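import Pool.Agent.Helper4.MCP.GoalsC

/-!
# Project MCP (MP_d8224a_co): packet MCP-REG

Regions: for subgroups `H j` of large index there are `H j`-periodic sets `R j`, most of each of
them outside the others, of small total size.
-/

set_option autoImplicit false

namespace Pool.Agent.Helper48.MCP

open Pool.Agent.Helper4.MCP Pool.Agent.Helper26.MCE Pool.Agent.Helper87.MC Finset

section

variable {G : Type} [AddCommGroup G] [Fintype G]

open Classical in
/-- A union of `m` cosets. -/
theorem exists_union (H : AddSubgroup G) (m : ℕ) (hm : m * Nat.card H ≤ Fintype.card G) :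
    ∃ R : Finset G, (∀ x ∈ R, ∀ h ∈ H, x + h ∈ R) ∧ R.card = m * Nat.card H := by
  have hHpos : 0 < Nat.card H := Nat.card_pos
  have hq : Nat.card (G ⧸ H) * Nat.card H = Fintype.card G := by
    rw [← Nat.card_eq_fintype_card (α := G)]
    exact (AddSubgroup.card_eq_card_quotient_mul_card_addSubgroup H).symm
  have hm' : m ≤ Fintype.card (G ⧸ H) := by
    rw [← Nat.card_eq_fintype_card]
    refine Nat.le_of_mul_le_mul_right ?_ hHpos
    rw [hq]
    exact hm
  obtain ⟨S, -, hS⟩ := Finset.exists_subset_card_eq (s := (univ : Finset (G ⧸ H))) (n := m)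
    (by rw [card_univ]; exact hm')
  refine ⟨univ.filter fun x => (QuotientAddGroup.mk x : G ⧸ H) ∈ S, ?_, ?_⟩
  · intro x hx h hh
    rw [mem_filter] at hx ⊢
    refine ⟨mem_univ _, ?_⟩
    have e : (QuotientAddGroup.mk (x + h) : G ⧸ H) = QuotientAddGroup.mk x := by
      rw [QuotientAddGroup.eq]
      have : -(x + h) + x = -h := by abel
      rw [this]
      exact H.neg_mem hh
    rw [e]
    exact hx.2
  · have hmaps : Set.MapsTo (fun x : G => (QuotientAddGroup.mk x : G ⧸ H))
        ((univ.filter fun x => (QuotientAddGroup.mk x : G ⧸ H) ∈ S : Finset G) : Set G)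
        (S : Set (G ⧸ H)) := by
      intro x hx
      rw [mem_coe, mem_filter] at hx
      exact hx.2
    rw [Finset.card_eq_sum_card_fiberwise hmaps]
    have h2 : ∀ c ∈ S, ((univ.filter fun x => (QuotientAddGroup.mk x : G ⧸ H) ∈ S).filter
        fun x => (QuotientAddGroup.mk x : G ⧸ H) = c).card = Nat.card H := by
      intro c hc
      obtain ⟨g, rfl⟩ := QuotientAddGroup.mk_surjective c
      rw [Nat.card_eq_fintype_card, ← card_univ]
      symm
      refine card_bij (fun (h : H) _ => g + (h : G)) ?_ ?_ ?_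
      · intro h _
        have e : (QuotientAddGroup.mk (g + (h : G)) : G ⧸ H) = QuotientAddGroup.mk g := by
          rw [QuotientAddGroup.eq]
          have : -(g + (h : G)) + g = -(h : G) := by abel
          rw [this]
          exact H.neg_mem h.2
        rw [mem_filter, mem_filter]
        exact ⟨⟨mem_univ _, by rw [e]; exact hc⟩, e⟩
      · intro a _ b _ hab
        exact Subtype.ext (add_left_cancel hab)
      · intro y hy
        have h3 := (mem_filter.1 hy).2
        rw [eq_comm, QuotientAddGroup.eq] at h3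
        exact ⟨⟨-g + y, h3⟩, mem_univ _, add_neg_cancel_left g y⟩
    rw [Finset.sum_congr rfl h2, Finset.sum_const, hS, smul_eq_mul]

open Classical in
/-- The translate `t + A`. -/
noncomputable def tr (t : G) (A : Finset G) : Finset G := univ.filter fun x => x - t ∈ A

open Classical in
theorem mem_tr {t x : G} {A : Finset G} : x ∈ tr t A ↔ x - t ∈ A := by
  unfold tr
  rw [mem_filter]
  exact ⟨fun h => h.2, fun h => ⟨mem_univ _, h⟩⟩

open Classical in
theorem card_tr (t : G) (A : Finset G) : (tr t A).card = A.card := by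
  refine card_bij (fun x _ => x - t) ?_ ?_ ?_
  · intro x hx
    exact mem_tr.1 hx
  · intro x _ y _ h
    exact sub_left_injective h
  · intro y hy
    refine ⟨y + t, mem_tr.2 ?_, ?_⟩
    · rw [add_sub_cancel_right]
      exact hy
    · rw [add_sub_cancel_right]

open Classical in
theorem card_sub (x : G) (A : Finset G) : (univ.filter fun t : G => x - t ∈ A).card = A.card := by
  refine card_bij (fun t _ => x - t) ?_ ?_ ?_
  · intro t ht
    exact (mem_filter.1 ht).2
  · intro a _ b _ h
    exact sub_right_injective h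
  · intro y hy
    refine ⟨x - y, mem_filter.2 ⟨mem_univ _, ?_⟩, ?_⟩
    · rw [sub_sub_cancel]
      exact hy
    · rw [sub_sub_cancel]

open Classical in
/-- The number of the `τ` with given conditions at two places. -/
theorem card_two {q : ℕ} (x : G) (A B : Finset G) (i j : Fin q) (hij : i ≠ j) :
    (univ.filter fun τ : Fin q → G => x - τ i ∈ A ∧ x - τ j ∈ B).card * Fintype.card G ^ 2 =
      A.card * B.card * Fintype.card G ^ q := by
  have h1 : (univ.filter fun τ : Fin q → G => x - τ i ∈ A ∧ x - τ j ∈ B) =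
      Fintype.piFinset fun k : Fin q => if k = i then univ.filter fun t : G => x - t ∈ A else
        if k = j then univ.filter fun t : G => x - t ∈ B else univ := by
    ext τ
    rw [mem_filter, Fintype.mem_piFinset]
    constructor
    · rintro ⟨-, h2, h3⟩ k
      by_cases hk : k = i
      · rw [if_pos hk, hk, mem_filter]
        exact ⟨mem_univ _, h2⟩
      · rw [if_neg hk]
        by_cases hk' : k = j
        · rw [if_pos hk', hk', mem_filter]
          exact ⟨mem_univ _, h3⟩
        · rw [if_neg hk']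
          exact mem_univ _
    · intro h
      refine ⟨mem_univ _, ?_, ?_⟩
      · have := h i
        rw [if_pos rfl, mem_filter] at this
        exact this.2
      · have := h j
        rw [if_neg (Ne.symm hij), if_pos rfl, mem_filter] at this
        exact this.2
  rw [h1, Fintype.card_piFinset, ← Finset.mul_prod_erase univ _ (mem_univ i),
    ← Finset.mul_prod_erase (univ.erase i) _ (mem_erase.2 ⟨Ne.symm hij, mem_univ j⟩), if_pos rfl,
    if_neg (Ne.symm hij), if_pos rfl, card_sub, card_sub]
  have h2 : ∏ k ∈ (univ.erase i).erase j, (if k = i then univ.filter fun t : G => x - t ∈ A else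
        if k = j then univ.filter fun t : G => x - t ∈ B else univ).card =
      Fintype.card G ^ (q - 2) := by
    rw [Finset.prod_congr rfl (g := fun _ => Fintype.card G), prod_const,
      card_erase_of_mem (mem_erase.2 ⟨Ne.symm hij, mem_univ j⟩), card_erase_of_mem (mem_univ i),
      card_univ, Fintype.card_fin, Nat.sub_sub]
    intro k hk
    rw [mem_erase, mem_erase] at hk
    rw [if_neg hk.2.1, if_neg hk.1, card_univ]
  have hq : 2 ≤ q := by
    have h3 := i.2
    have h4 := j.2
    have h5 : (i : ℕ) ≠ j := fun h => hij (Fin.ext h)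
    omega
  rw [h2, mul_assoc, mul_assoc, mul_assoc, ← pow_add, Nat.sub_add_cancel hq]

open Classical in
/-- The mean size of the intersection. -/
theorem sum_inter {q : ℕ} (A B : Finset G) (i j : Fin q) (hij : i ≠ j) :
    (∑ τ : Fin q → G, (tr (τ i) A ∩ tr (τ j) B).card) * Fintype.card G =
      A.card * B.card * Fintype.card G ^ q := by
  have hn : 0 < Fintype.card G := Fintype.card_pos
  have h1 : ∑ τ : Fin q → G, (tr (τ i) A ∩ tr (τ j) B).card =
      ∑ x : G, (univ.filter fun τ : Fin q → G => x - τ i ∈ A ∧ x - τ j ∈ B).card := by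
    simp_rw [card_filter]
    rw [Finset.sum_comm]
    refine Finset.sum_congr rfl fun τ _ => ?_
    rw [← card_filter]
    congr 1
    ext x
    rw [mem_inter, mem_tr, mem_tr, mem_filter]
    exact ⟨fun h => ⟨mem_univ _, h⟩, fun h => h.2⟩
  rw [h1]
  refine Nat.eq_of_mul_eq_mul_right hn ?_
  rw [mul_assoc, ← pow_two, Finset.sum_mul, Finset.sum_congr rfl fun x _ =>
    card_two x A B i j hij, Finset.sum_const, card_univ, smul_eq_mul, mul_comm]

end

open Classical in
/-- **REG.** -/
theorem goalREG : G_REG := by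
  intro G _ _ q H hq hH
  have hn : 0 < Fintype.card G := Fintype.card_pos
  have hH0 : ∀ j, 0 < Nat.card (H j) := fun j => Nat.card_pos
  -- the sets `R⁰ j`
  have hR0 : ∀ j, ∃ R : Finset G, (∀ x ∈ R, ∀ h ∈ H j, x + h ∈ R) ∧
      4 * q ^ 2 * R.card ≤ Fintype.card G ∧ Fintype.card G ≤ 8 * q ^ 2 * R.card := by
    intro j
    obtain ⟨c, hc⟩ : ∃ c, c * Nat.card (H j) = Fintype.card G := by
      refine ⟨Nat.card (G ⧸ H j), ?_⟩
      rw [← Nat.card_eq_fintype_card (α := G)]
      exact (AddSubgroup.card_eq_card_quotient_mul_card_addSubgroup (H j)).symm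
    have hc8 : 8 * q ^ 2 ≤ c := by
      refine Nat.le_of_mul_le_mul_right ?_ (hH0 j)
      rw [hc]
      exact hH j
    obtain ⟨a, ha⟩ : ∃ a, a = 4 * q ^ 2 := ⟨_, rfl⟩
    have hapos : 0 < a := by rw [ha]; positivity
    obtain ⟨m, hm⟩ : ∃ m, m = c / a := ⟨_, rfl⟩
    have h1 : a * m ≤ c := by rw [hm]; exact Nat.mul_div_le c a
    have h2 : c < a * m + a := by
      have := Nat.lt_mul_div_succ c hapos
      rw [← hm] at this
      linarith
    have hm1 : 1 ≤ m := by
      rw [hm, Nat.one_le_div_iff hapos]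
      omega
    have h3 : c ≤ 2 * a * m := by nlinarith
    obtain ⟨R, hR1, hR2⟩ := exists_union (H j) m (by
      rw [← hc]
      refine Nat.mul_le_mul_right _ (le_trans ?_ h1)
      exact Nat.le_mul_of_pos_left m hapos)
    refine ⟨R, hR1, ?_, ?_⟩
    · rw [hR2, ← ha, ← hc, ← mul_assoc]
      exact Nat.mul_le_mul_right _ h1
    · have e : 8 * q ^ 2 = 2 * a := by rw [ha]; ring
      rw [hR2, e, ← hc, ← mul_assoc]
      exact Nat.mul_le_mul_right _ h3
  choose R0 hR1 hR2 hR3 using hR0
  have hr0 : ∀ j, 0 < (R0 j).card := by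
    intro j
    rcases Nat.eq_zero_or_pos (R0 j).card with h | h
    · have := hR3 j
      rw [h] at this
      omega
    · exact h
  have hnR : (0 : ℝ) < Fintype.card G := by exact_mod_cast hn
  have hrR : ∀ j, (0 : ℝ) < (R0 j).card := fun j => by exact_mod_cast hr0 j
  have hqR : (1 : ℝ) ≤ q := by exact_mod_cast hq
  -- the average
  have havg : ∑ τ : Fin q → G, ∑ j, (∑ j' ∈ univ.erase j,
      ((tr (τ j) (R0 j) ∩ tr (τ j') (R0 j')).card : ℝ)) / (R0 j).card ≤
      ∑ τ : Fin q → G, (1 / 4 : ℝ) := by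
    rw [Finset.sum_comm, Finset.sum_const, card_univ, Fintype.card_pi_const, nsmul_eq_mul]
    have h1 : ∀ j, ∑ τ : Fin q → G, (∑ j' ∈ univ.erase j,
        ((tr (τ j) (R0 j) ∩ tr (τ j') (R0 j')).card : ℝ)) / (R0 j).card ≤
        (Fintype.card G : ℝ) ^ q / (4 * q) := by
      intro j
      rw [← Finset.sum_div, Finset.sum_comm]
      have h2 : ∀ j' ∈ univ.erase j, ∑ τ : Fin q → G,
          ((tr (τ j) (R0 j) ∩ tr (τ j') (R0 j')).card : ℝ) ≤
          (R0 j).card * ((Fintype.card G : ℝ) ^ q / (4 * q ^ 2)) := by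
        intro j' hj'
        have h3 := sum_inter (R0 j) (R0 j') j j' (Ne.symm (mem_erase.1 hj').1)
        have h4 : (∑ τ : Fin q → G, ((tr (τ j) (R0 j) ∩ tr (τ j') (R0 j')).card : ℝ)) *
            Fintype.card G = (R0 j).card * (R0 j').card * (Fintype.card G : ℝ) ^ q := by
          exact_mod_cast h3
        have h5 : 4 * (q : ℝ) ^ 2 * (R0 j').card ≤ Fintype.card G := by exact_mod_cast hR2 j'
        have h6 : ((R0 j').card : ℝ) ≤ Fintype.card G / (4 * q ^ 2) := by
          rw [le_div_iff₀ (by positivity)]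
          linarith
        have h7 : (∑ τ : Fin q → G, ((tr (τ j) (R0 j) ∩ tr (τ j') (R0 j')).card : ℝ)) =
            (R0 j).card * (R0 j').card * (Fintype.card G : ℝ) ^ q / Fintype.card G := by
          rw [eq_div_iff hnR.ne']
          exact h4
        rw [h7, div_le_iff₀ hnR]
        calc ((R0 j).card : ℝ) * (R0 j').card * (Fintype.card G : ℝ) ^ q
            ≤ (R0 j).card * (Fintype.card G / (4 * q ^ 2)) * (Fintype.card G : ℝ) ^ q := by
              gcongr
          _ = (R0 j).card * ((Fintype.card G : ℝ) ^ q / (4 * q ^ 2)) * Fintype.card G := by ring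
      have h8 := Finset.sum_le_sum h2
      rw [Finset.sum_const, card_erase_of_mem (mem_univ j), card_univ, Fintype.card_fin,
        nsmul_eq_mul] at h8
      rw [div_le_iff₀ (hrR j)]
      refine h8.trans ?_
      have h9 : ((q - 1 : ℕ) : ℝ) ≤ q := by exact_mod_cast Nat.sub_le q 1
      calc ((q - 1 : ℕ) : ℝ) * ((R0 j).card * ((Fintype.card G : ℝ) ^ q / (4 * q ^ 2)))
          ≤ q * ((R0 j).card * ((Fintype.card G : ℝ) ^ q / (4 * q ^ 2))) := by gcongr
        _ = (Fintype.card G : ℝ) ^ q / (4 * q) * (R0 j).card := by field_simp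
    refine (Finset.sum_le_sum fun j _ => h1 j).trans ?_
    rw [Finset.sum_const, card_univ, Fintype.card_fin, nsmul_eq_mul]
    push_cast
    apply le_of_eq
    field_simp
  obtain ⟨τ, -, hτ⟩ := Finset.exists_le_of_sum_le (s := (univ : Finset (Fin q → G)))
    (by
      have : Nonempty G := ⟨0⟩
      exact univ_nonempty) havg
  have hτj : ∀ j, ∑ j' ∈ univ.erase j,
      ((tr (τ j) (R0 j) ∩ tr (τ j') (R0 j')).card : ℝ) ≤ 1 / 4 * (R0 j).card := by
    intro j
    rw [← div_le_iff₀ (hrR j)]
    refine le_trans ?_ hτ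
    exact Finset.single_le_sum (f := fun j => (∑ j' ∈ univ.erase j,
      ((tr (τ j) (R0 j) ∩ tr (τ j') (R0 j')).card : ℝ)) / (R0 j).card)
      (fun i _ => by positivity) (mem_univ j)
  refine ⟨fun j => tr (τ j) (R0 j), ?_, ?_, ?_⟩
  · intro j x hx h hh
    rw [mem_tr] at hx ⊢
    have e : x + h - τ j = (x - τ j) + h := by abel
    rw [e]
    exact hR1 j _ hx h hh
  · intro j
    have h1 : (tr (τ j) (R0 j)).card ≤
        (tr (τ j) (R0 j) \ (univ.erase j).biUnion fun j' => tr (τ j') (R0 j')).card +
          ∑ j' ∈ univ.erase j, (tr (τ j) (R0 j) ∩ tr (τ j') (R0 j')).card := by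
      have h2 : tr (τ j) (R0 j) ⊆
          (tr (τ j) (R0 j) \ (univ.erase j).biUnion fun j' => tr (τ j') (R0 j')) ∪
            (univ.erase j).biUnion fun j' => tr (τ j) (R0 j) ∩ tr (τ j') (R0 j') := by
        intro x hx
        by_cases h : x ∈ (univ.erase j).biUnion fun j' => tr (τ j') (R0 j')
        · refine mem_union_right _ ?_
          rw [mem_biUnion] at h ⊢
          obtain ⟨j', hj', hx'⟩ := h
          exact ⟨j', hj', mem_inter.2 ⟨hx, hx'⟩⟩
        · exact mem_union_left _ (mem_sdiff.2 ⟨hx, h⟩)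
      refine (card_le_card h2).trans ((card_union_le _ _).trans ?_)
      exact Nat.add_le_add_left card_biUnion_le _
    rw [card_tr] at h1
    have h3 : ((R0 j).card : ℝ) ≤
        ((tr (τ j) (R0 j) \ (univ.erase j).biUnion fun j' => tr (τ j') (R0 j')).card : ℝ) +
          ∑ j' ∈ univ.erase j, ((tr (τ j) (R0 j) ∩ tr (τ j') (R0 j')).card : ℝ) := by
      exact_mod_cast h1
    have h4 := hτj j
    have h5 : (Fintype.card G : ℝ) ≤ 8 * (q : ℝ) ^ 2 * (R0 j).card := by exact_mod_cast hR3 j
    have h6 : ((R0 j).card : ℝ) ≤ 2 *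
        ((tr (τ j) (R0 j) \ (univ.erase j).biUnion fun j' => tr (τ j') (R0 j')).card : ℝ) := by
      have := hrR j
      linarith
    have h7 : (Fintype.card G : ℝ) ≤ 16 * (q : ℝ) ^ 2 *
        ((tr (τ j) (R0 j) \ (univ.erase j).biUnion fun j' => tr (τ j') (R0 j')).card : ℝ) := by
      refine h5.trans ?_
      have h8 : (0 : ℝ) ≤ 8 * (q : ℝ) ^ 2 := by positivity
      calc 8 * (q : ℝ) ^ 2 * (R0 j).card ≤ 8 * (q : ℝ) ^ 2 * (2 *
        ((tr (τ j) (R0 j) \ (univ.erase j).biUnion fun j' => tr (τ j') (R0 j')).card : ℝ)) := by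
            gcongr
        _ = _ := by ring
    exact_mod_cast h7
  · have h1 : ∀ j, (4 * ((tr (τ j) (R0 j)).card : ℝ)) ≤ Fintype.card G / q ^ 2 := by
      intro j
      rw [card_tr]
      have h5 : 4 * (q : ℝ) ^ 2 * (R0 j).card ≤ Fintype.card G := by exact_mod_cast hR2 j
      rw [le_div_iff₀ (by positivity)]
      linarith
    have h2 : (4 * ∑ j, ((tr (τ j) (R0 j)).card : ℝ)) ≤ Fintype.card G := by
      rw [Finset.mul_sum]
      refine (Finset.sum_le_sum fun j _ => h1 j).trans ?_
      rw [Finset.sum_const, card_univ, Fintype.card_fin, nsmul_eq_mul]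
      have e : (q : ℝ) * (Fintype.card G / q ^ 2) = Fintype.card G / q := by
        field_simp
      rw [e]
      exact div_le_self hnR.le hqR
    exact_mod_cast h2

end Pool.Agent.Helper48.MCP
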